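import Pool.Agent.T9h72.Fish.KidsR

set_option autoImplicit false

/-! Generating tree of the Fishburn permutations avoiding `4213` (insertion of the maximum),
for MP_e853da_co. -/

namespace Pool.Agent.T9h67.Fish

open List Pool.Agent.T9h72.Fish

def Av213 (B : List ℕ) : Prop := ∀ a b c : ℕ, [a, b, c].Sublist B → ¬ (b < a ∧ a < c)

/-- sites for `4213` -/
def V4 (A B : List ℕ) : Prop :=
  (∀ A' x, A = A' ++ [x] → ∀ v ∈ B, v + 1 ≠ x) ∧ Av213 B

theorem V4_snoc (A B : List ℕ) (x : ℕ) : V4 (A ++ [x]) B ↔ (∀ v ∈ B, v + 1 ≠ x) ∧ Av213 B := by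
  constructor
  · rintro ⟨h1, h2⟩
    exact ⟨h1 A x rfl, h2⟩
  · rintro ⟨h1, h2⟩
    refine ⟨fun A' y h => ?_, h2⟩
    have := List.append_inj' h rfl
    simp only [cons.injEq, and_true] at this
    rw [← this.2]
    exact h1

theorem V4_single (B : List ℕ) (x : ℕ) : V4 [x] B ↔ (∀ v ∈ B, v + 1 ≠ x) ∧ Av213 B :=
  V4_snoc [] B x

theorem V4_snoc' (A B : List ℕ) (x : ℕ) : V4 (A ++ [x]) B ↔ V4 [x] B := by
  rw [V4_snoc, V4_single]

theorem av213_nil : Av213 [] := by
  intro a b c h
  simp at h

theorem Av213.mono {B B' : List ℕ} (h : B'.Sublist B) (H : Av213 B) : Av213 B' :=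
  fun a b c h1 => H a b c (h1.trans h)

theorem av4213_insert (N : ℕ) (A B : List ℕ) (h : ∀ v ∈ A ++ B, v < N) :
    Av4213 (A ++ N :: B) ↔ Av4213 (A ++ B) ∧ Av213 B := by
  constructor
  · intro H
    refine ⟨fun a b c d h1 => H a b c d (sublist_insert h1), fun b c d h1 h2 => ?_⟩
    refine H N b c d ?_ ⟨h2.1, h2.2, h d ?_⟩
    · exact (cons_sublist_cons.2 h1).trans (sublist_append_right A (N :: B))
    · exact mem_append_right _ (h1.subset (by simp))
  · rintro ⟨H1, H2⟩ a b c d h1 ⟨h2, h3, h4⟩
    have hle : ∀ v ∈ [a, b, c, d], v ≤ N := by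
      intro v hv
      have := h1.subset hv
      simp only [mem_append, mem_cons] at this h
      rcases this with h5 | h5 | h5
      · exact (h v (Or.inl h5)).le
      · exact h5.le
      · exact (h v (Or.inr h5)).le
    have ha := hle a (by simp)
    by_cases haN : a = N
    · subst haN
      refine H2 b c d (sublist_tail_of_insert h1 ?_) ⟨h2, h3⟩
      intro h5
      exact lt_irrefl _ (h a (mem_append_left _ h5))
    · refine H1 a b c d (sublist_of_insert h1 ?_) ⟨h2, h3, h4⟩
      simp only [mem_cons, not_mem_nil, or_false, not_or]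
      omega

theorem hV4 (n : ℕ) (A B : List ℕ) (h : (A ++ B).Perm (range (n + 1))) :
    ((Fsh (A ++ (n + 1) :: B) ∧ Av4213 (A ++ (n + 1) :: B)) ↔
      (Fsh (A ++ B) ∧ Av4213 (A ++ B)) ∧ V4 A B) := by
  have h1 : ∀ v ∈ A ++ B, v < n + 1 := by
    intro v hv
    rw [h.mem_iff] at hv
    simpa using hv
  rw [fsh_insert (n + 1) A B h1, av4213_insert (n + 1) A B h1, V4]
  tauto

/-- insertion of a maximum into the right part of a site -/
theorem V4_insert_iff {A T B : List ℕ} {N : ℕ} (hA : ∀ v ∈ A, v < N) (hT : ∀ v ∈ T, v < N)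
    (hB : ∀ v ∈ B, v < N) :
    V4 A (T ++ N :: B) ↔ V4 A (T ++ B) ∧ T.Pairwise (· ≤ ·) := by
  have hNB : N ∉ B := fun h => lt_irrefl _ (hB N h)
  constructor
  · rintro ⟨h1, h2⟩
    refine ⟨⟨fun A' x hx v hv => h1 A' x hx v ?_, h2.mono (sublist_insert (Sublist.refl _))⟩, ?_⟩
    · simp only [mem_append, mem_cons] at hv ⊢
      tauto
    · rw [pairwise_iff_forall_sublist]
      intro a b h3
      by_contra h4
      refine h2 a b N ?_ ⟨not_le.1 h4, hT a (h3.subset (by simp))⟩
      have : ([a, b] ++ [N]).Sublist (T ++ N :: B) :=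
        h3.append (cons_sublist_cons.2 (nil_sublist B))
      exact this
  · rintro ⟨⟨h1, h2⟩, h3⟩
    refine ⟨fun A' x hx v hv => ?_, ?_⟩
    · by_cases hvN : v = N
      · have := hA x (by rw [hx]; simp)
        omega
      · refine h1 A' x hx v ?_
        simp only [mem_append, mem_cons] at hv ⊢
        tauto
    · intro a b c h4 ⟨h5, h6⟩
      by_cases hc : c = N
      · subst hc
        have h7 : [a, b].Sublist T := sublist_head_of_insert (l := [a, b]) h4 hNB
        rw [pairwise_iff_forall_sublist] at h3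
        have := h3 h7
        omega
      · have hle : ∀ v ∈ [a, b, c], v ≤ N := by
          intro v hv
          have := h4.subset hv
          simp only [mem_append, mem_cons] at this
          rcases this with h5 | h5 | h5
          · exact (hT v h5).le
          · exact h5.le
          · exact (hB v h5).le
        have hc' := hle c (by simp)
        refine h2 a b c (sublist_of_insert h4 ?_) ⟨h5, h6⟩
        simp only [mem_cons, not_mem_nil, or_false, not_or]
        omega

theorem V4_cons_iff {A B : List ℕ} {N : ℕ} (hA : ∀ v ∈ A, v < N) (hB : ∀ v ∈ B, v < N) :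
    V4 A (N :: B) ↔ V4 A B := by
  have := V4_insert_iff (T := []) hA (by simp) hB
  simpa using this

/-! ### counting sites -/

theorem nvr_congr (V : List ℕ → List ℕ → Prop) (rA S S' : List ℕ)
    (h : ∀ A1 x T, rA.reverse = A1 ++ x :: T → (V A1 (x :: T ++ S) ↔ V A1 (x :: T ++ S'))) :
    nvr V rA S = nvr V rA S' := by
  induction rA generalizing S S' with
  | nil => rfl
  | cons y rA ih =>
    rw [nvr, nvr, ih (y :: S) (y :: S')]
    · have h1 := h rA.reverse y [] (by simp)
      simp only [cons_append, nil_append] at h1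
      congr 1
      by_cases h2 : V rA.reverse (y :: S)
      · rw [if_pos h2, if_pos (h1.1 h2)]
      · rw [if_neg h2, if_neg (fun h3 => h2 (h1.2 h3))]
    · intro A1 x T h1
      have h2 := h A1 x (T ++ [y]) (by rw [reverse_cons, h1]; simp)
      simpa using h2

theorem nvs_congr (V : List ℕ → List ℕ → Prop) (A S S' : List ℕ)
    (h : ∀ A1 x T, A = A1 ++ x :: T → (V A1 (x :: T ++ S) ↔ V A1 (x :: T ++ S'))) :
    nvs V A S = nvs V A S' := by
  refine nvr_congr V _ S S' ?_
  rw [reverse_reverse]
  exact h

theorem nvr_zero' (V : List ℕ → List ℕ → Prop) (rA S : List ℕ)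
    (h : ∀ A1 x T, rA.reverse = A1 ++ x :: T → ¬ V A1 (x :: T ++ S)) :
    nvr V rA S = 0 := by
  induction rA generalizing S with
  | nil => rfl
  | cons y rA ih =>
    rw [nvr, ih (y :: S), if_neg]
    · have h1 := h rA.reverse y [] (by simp)
      simpa using h1
    · intro A1 x T h1
      have h2 := h A1 x (T ++ [y]) (by rw [reverse_cons, h1]; simp)
      simpa using h2

theorem nvs_zero' (V : List ℕ → List ℕ → Prop) (A S : List ℕ)
    (h : ∀ A1 x T, A = A1 ++ x :: T → ¬ V A1 (x :: T ++ S)) :
    nvs V A S = 0 := by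
  refine nvr_zero' V _ S ?_
  rw [reverse_reverse]
  exact h

theorem snoc_split {A A1 T : List ℕ} {x y : ℕ} (h : A ++ [y] = A1 ++ x :: T) :
    ∃ T', x :: T = T' ++ [y] ∧ A = A1 ++ T' := by
  rcases List.eq_nil_or_concat (x :: T) with h1 | ⟨T', z, h1⟩
  · simp at h1
  · rw [concat_eq_append] at h1
    rw [h1, ← append_assoc] at h
    have h2 := List.append_inj' h rfl
    simp only [cons.injEq, and_true] at h2
    exact ⟨T', by rw [h1, h2.2], h2.1⟩

theorem nvs_snoc_congr (V : List ℕ → List ℕ → Prop) (A S S' : List ℕ) (y : ℕ)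
    (h : ∀ A1 T, A = A1 ++ T → (V A1 (T ++ y :: S) ↔ V A1 (T ++ y :: S'))) :
    nvs V (A ++ [y]) S = nvs V (A ++ [y]) S' := by
  refine nvs_congr V _ _ _ ?_
  intro A1 x T h1
  obtain ⟨T', h2, h3⟩ := snoc_split h1
  rw [h2]
  have := h A1 T' h3
  simpa using this

theorem nvs_snoc_zero (V : List ℕ → List ℕ → Prop) (A S : List ℕ) (y : ℕ)
    (h : ∀ A1 T, A = A1 ++ T → ¬ V A1 (T ++ y :: S)) :
    nvs V (A ++ [y]) S = 0 := by
  refine nvs_zero' V _ _ ?_
  intro A1 x T h1
  obtain ⟨T', h2, h3⟩ := snoc_split h1
  rw [h2]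
  have := h A1 T' h3
  simpa using this

/-- inserting `N` after `z` instead of before `z` (`y ≤ z` adjacent) -/
theorem nvs_move {A B : List ℕ} {y z N : ℕ} (hyz : y ≤ z) (hA : ∀ v ∈ A, v < N) (hy : y < N)
    (hz : z < N) (hB : ∀ v ∈ B, v < N) :
    nvs V4 (A ++ [y]) (z :: N :: B) = nvs V4 (A ++ [y]) (N :: z :: B) := by
  refine nvs_snoc_congr V4 _ _ _ _ ?_
  intro A1 T hT
  have hA1 : ∀ v ∈ A1, v < N := fun v hv => hA v (by rw [hT]; simp [hv])
  have hT1 : ∀ v ∈ T, v < N := fun v hv => hA v (by rw [hT]; simp [hv])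
  have e1 : T ++ y :: z :: N :: B = (T ++ [y, z]) ++ N :: B := by simp
  have e2 : T ++ y :: N :: z :: B = (T ++ [y]) ++ N :: (z :: B) := by simp
  have e3 : (T ++ [y, z]) ++ B = (T ++ [y]) ++ z :: B := by simp
  rw [e1, e2, V4_insert_iff hA1, V4_insert_iff hA1, e3]
  · refine and_congr_right fun _ => ?_
    simp only [pairwise_append, pairwise_cons, mem_cons, not_mem_nil, or_false,
      IsEmpty.forall_iff, implies_true, Pairwise.nil, and_true, true_and, forall_eq_or_imp, forall_eq]
    constructor
    · rintro ⟨h1, _, h3⟩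
      exact ⟨h1, fun a ha => (h3 a ha).1⟩
    · rintro ⟨h1, h3⟩
      exact ⟨h1, hyz, fun a ha => ⟨h3 a ha, (h3 a ha).trans hyz⟩⟩
  · intro v hv
    simp only [mem_append, mem_cons, not_mem_nil, or_false] at hv
    rcases hv with hv | rfl
    · exact hT1 v hv
    · exact hy
  · intro v hv
    simp only [mem_cons] at hv
    rcases hv with rfl | hv
    · exact hz
    · exact hB v hv
  · intro v hv
    simp only [mem_append, mem_cons, not_mem_nil, or_false] at hv
    rcases hv with hv | rfl | rfl
    · exact hT1 v hv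
    · exact hy
    · exact hz
  · exact hB

theorem nvs_desc {A B : List ℕ} {y z N : ℕ} (hyz : z < y) (hA : ∀ v ∈ A, v < N) (hy : y < N)
    (hB : ∀ v ∈ B, v < N) :
    nvs V4 (A ++ [y]) (z :: N :: B) = 0 := by
  refine nvs_snoc_zero V4 _ _ _ ?_
  intro A1 T hT hV
  have hA1 : ∀ v ∈ A1, v < N := fun v hv => hA v (by rw [hT]; simp [hv])
  have hT1 : ∀ v ∈ T, v < N := fun v hv => hA v (by rw [hT]; simp [hv])
  have e1 : T ++ y :: z :: N :: B = (T ++ [y, z]) ++ N :: B := by simp
  rw [e1, V4_insert_iff hA1 _ hB] at hV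
  · have h1 := hV.2
    simp only [pairwise_append, pairwise_cons, mem_cons, not_mem_nil, or_false,
      IsEmpty.forall_iff, implies_true, Pairwise.nil, and_true, forall_eq_or_imp,
      forall_eq] at h1
    omega
  · intro v hv
    simp only [mem_append, mem_cons, not_mem_nil, or_false] at hv
    rcases hv with hv | rfl | rfl
    · exact hT1 v hv
    · exact hy
    · omega

theorem nvs_max {L R : List ℕ} {m N : ℕ} (hmN : m < N) (hL : ∀ v ∈ L, v < m)
    (hR : ∀ v ∈ R, v < m) :
    nvs V4 (L ++ [m]) (N :: R) = nvs V4 (L ++ [m]) R := by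
  refine nvs_snoc_congr V4 _ _ _ _ ?_
  intro A1 T hT
  have hA1 : ∀ v ∈ A1, v < m := fun v hv => hL v (by rw [hT]; simp [hv])
  have hT1 : ∀ v ∈ T, v < m := fun v hv => hL v (by rw [hT]; simp [hv])
  have e1 : T ++ m :: N :: R = (T ++ [m]) ++ N :: R := by simp
  have e2 : T ++ m :: R = (T ++ [m]) ++ R := by simp
  rw [e1, V4_insert_iff (fun v hv => (hA1 v hv).trans hmN) _ (fun v hv => (hR v hv).trans hmN),
    ← e2]
  · constructor
    · exact fun h => h.1
    · intro h
      refine ⟨h, ?_⟩
      rw [V4_insert_iff hA1 hT1 hR] at h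
      rw [pairwise_append]
      refine ⟨h.2, pairwise_singleton _ _, ?_⟩
      intro a ha b hb
      rw [mem_singleton] at hb
      rw [hb]
      exact (hT1 a ha).le
  · intro v hv
    simp only [mem_append, mem_cons, not_mem_nil, or_false] at hv
    rcases hv with hv | rfl
    · exact (hT1 v hv).trans hmN
    · exact hmN

theorem nvs_left {A B R : List ℕ} {m N : ℕ} (hmN : m < N) (hA : ∀ v ∈ A, v < m)
    (hB : ∀ v ∈ B, v < m) (hR : ∀ v ∈ R, v < m) :
    nvs V4 A (N :: (B ++ m :: R)) = nvs V4 A (B ++ m :: R) := by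
  refine nvs_congr V4 _ _ _ ?_
  intro A1 x T hT
  have hA1 : ∀ v ∈ A1, v < m := fun v hv => hA v (by rw [hT]; simp [hv])
  have hT1 : ∀ v ∈ x :: T, v < m := fun v hv => hA v (by rw [hT]; exact mem_append_right _ hv)
  rw [V4_insert_iff (fun v hv => (hA1 v hv).trans hmN) (fun v hv => (hT1 v hv).trans hmN)]
  · constructor
    · exact fun h => h.1
    · intro h
      refine ⟨h, ?_⟩
      rw [← append_assoc, V4_insert_iff hA1 _ hR] at h
      · exact (pairwise_append.1 h.2).1
      · intro v hv
        rw [mem_append] at hv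
        rcases hv with hv | hv
        · exact hT1 v hv
        · exact hB v hv
  · intro v hv
    simp only [mem_append, mem_cons] at hv
    rcases hv with hv | rfl | hv
    · exact (hB v hv).trans hmN
    · exact hmN
    · exact (hR v hv).trans hmN

/-! ### the stack -/

open Classical in
/-- `rn y B = (x, st)`: `x` is the number of the valid sites after `y` and after the later elements
of the increasing run beginning with `y` in `y :: B`, and `st` describes the later runs -/
noncomputable def rn : ℕ → List ℕ → ℕ × List (ℕ × ℕ)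
  | _, [] => (1, [])
  | y, z :: B =>
    if y ≤ z then ((if V4 [y] (z :: B) then 1 else 0) + (rn z B).1, (rn z B).2)
    else (if V4 [y] (z :: B) then 1 else 0,
      ((rn z B).1, if V4 [y] (z :: B) then 1 else 0) :: (rn z B).2)

abbrev St := ℕ × Bool × List (ℕ × ℕ)

def fl (st : List (ℕ × ℕ)) : List (ℕ × ℕ) := st.filter (fun e => decide (e.1 ≠ 0))

theorem fl_zero (b : ℕ) (st : List (ℕ × ℕ)) : fl ((0, b) :: st) = fl st := by
  simp [fl]

theorem fl_cons (x b : ℕ) (hx : x ≠ 0) (st : List (ℕ × ℕ)) : fl ((x, b) :: st) = (x, b) :: fl st := by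
  simp [fl, hx]

theorem fl_fl (st : List (ℕ × ℕ)) : fl (fl st) = fl st := by
  simp [fl]

theorem fl_cons_congr (e : ℕ × ℕ) {st st' : List (ℕ × ℕ)} (h : fl st = fl st') :
    fl (e :: st) = fl (e :: st') := by
  obtain ⟨x, b⟩ := e
  by_cases hx : x = 0
  · rw [hx, fl_zero, fl_zero, h]
  · rw [fl_cons x b hx, fl_cons x b hx, h]

/-- `l` has state `s`, up to the entries of the stack without sites -/
def Rep4 (l : List ℕ) (s : St) : Prop :=
  ∃ L R m, l = L ++ m :: R ∧ (∀ v ∈ L ++ R, v < m) ∧ nvs V4 (L ++ [m]) R = s.1 ∧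
    (rn m R).1 = (if s.2.1 then 1 else 0) ∧ fl (rn m R).2 = fl s.2.2

def eqv (s s' : St) : Prop := s.1 = s'.1 ∧ s.2.1 = s'.2.1 ∧ fl s.2.2 = fl s'.2.2

theorem Rep4.congr {l : List ℕ} {s s' : St} (h : Rep4 l s) (h' : eqv s s') : Rep4 l s' := by
  obtain ⟨L, R, m, h1, h2, h3, h4, h5⟩ := h
  refine ⟨L, R, m, h1, h2, ?_, ?_, ?_⟩
  · rw [h3, h'.1]
  · rw [h4, h'.2.1]
  · rw [h5, h'.2.2]

theorem eqv.symm {s s' : St} (h : eqv s s') : eqv s' s := ⟨h.1.symm, h.2.1.symm, h.2.2.symm⟩

theorem rep_congr {K : List (List ℕ)} {L L' : List St} (h : Forall₂ Rep4 K L)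
    (h' : Forall₂ eqv L L') : Forall₂ Rep4 K L' := by
  induction h generalizing L' with
  | nil => cases h'; exact Forall₂.nil
  | cons h1 _ ih =>
    cases h' with
    | cons h3 h4 => exact Forall₂.cons (h1.congr h3) (ih h4)

theorem rep_congr' {K : List (List ℕ)} {L L' : List St} (h : Forall₂ Rep4 K L)
    (h' : Forall₂ eqv L' L) : Forall₂ Rep4 K L' := by
  induction h generalizing L' with
  | nil => cases h'; exact Forall₂.nil
  | cons h1 _ ih =>
    cases h' with
    | cons h3 h4 => exact Forall₂.cons (h1.congr h3.symm) (ih h4)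

theorem forall2_map_range (n : ℕ) (f g : ℕ → St) (h : ∀ p, eqv (f p) (g p)) :
    Forall₂ eqv ((range n).map f) ((range n).map g) := by
  rw [forall₂_map_left_iff, forall₂_map_right_iff, forall₂_same]
  exact fun p _ => h p

theorem touch_fl (st : List (ℕ × ℕ)) : Forall₂ eqv (touch4 st) (touch4 (fl st)) := by
  induction st with
  | nil => exact Forall₂.nil
  | cons e st ih =>
    obtain ⟨x, b⟩ := e
    by_cases hx : x = 0
    · subst hx
      rw [fl_zero]
      simpa [touch4] using ih
    · rw [fl_cons x b hx, touch4, touch4]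
      refine rel_append (forall2_map_range _ _ _ fun p => ?_) ih
      exact ⟨rfl, rfl, fl_cons_congr _ (fl_fl st).symm⟩

theorem rep_touch {K : List (List ℕ)} {st st' : List (ℕ × ℕ)} (h : Forall₂ Rep4 K (touch4 st))
    (h' : fl st = fl st') : Forall₂ Rep4 K (touch4 st') := by
  have h1 := rep_congr h (touch_fl st)
  rw [h'] at h1
  exact rep_congr' h1 (touch_fl st')

/-! ### children -/

open Classical in
theorem child {N : ℕ} {A B : List ℕ} (h : ∀ v ∈ A ++ B, v < N) (H : V4 A B) (c : ℕ)
    (hc : nvs V4 A (N :: B) = c) (s : St) (h1 : s.1 = c + 1)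
    (h2 : (rn N B).1 = if s.2.1 then 1 else 0) (h3 : fl (rn N B).2 = fl s.2.2) :
    Rep4 (A ++ N :: B) s := by
  refine ⟨A, B, N, rfl, h, ?_, h2, h3⟩
  rw [nvs_snoc, if_pos, hc, h1]
  exact (V4_cons_iff (fun v hv => h v (mem_append_left _ hv))
    (fun v hv => h v (mem_append_right _ hv))).2 H

open Classical in
theorem rn_max {N z : ℕ} {B : List ℕ} (hz : z < N) :
    rn N (z :: B) = (if V4 [N] (z :: B) then 1 else 0,
      ((rn z B).1, if V4 [N] (z :: B) then 1 else 0) :: (rn z B).2) := by
  rw [rn, if_neg (by omega)]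

theorem right_part (N : ℕ) (A B : List ℕ) (y c : ℕ) (hN : ∀ v ∈ A ++ y :: B, v < N)
    (hm : ∀ v ∈ B, v + 1 ≠ N) (hc : nvs V4 (A ++ [y]) (N :: B) = c) :
    Forall₂ Rep4 (kidsR V4 N (A ++ [y]) B)
      ((range (rn y B).1).map (fun p => (c + (p + 1), true, ((rn y B).1 - (p + 1), 1) :: (rn y B).2))
        ++ touch4 (rn y B).2) := by
  classical
  induction B generalizing A y c with
  | nil =>
    have hV : V4 (A ++ [y]) [] := (V4_snoc _ _ _).2 ⟨by simp, av213_nil⟩
    rw [kidsR, if_pos hV, rn]
    simp only [range_one, map_cons, map_nil, touch4, append_nil]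
    refine Forall₂.cons ?_ Forall₂.nil
    refine child (B := []) ?_ hV c hc _ rfl ?_ ?_
    · intro v hv
      apply hN
      simpa using hv
    · simp [rn]
    · simp [rn, fl]
  | cons z B ih =>
    have hN' : ∀ v ∈ (A ++ [y]) ++ z :: B, v < N := by
      intro v hv
      apply hN
      simpa using hv
    have hm' : ∀ v ∈ B, v + 1 ≠ N := fun v hv => hm v (mem_cons_of_mem _ hv)
    have hA : ∀ v ∈ A, v < N := fun v hv => hN v (by simp [hv])
    have hy : y < N := hN y (by simp)
    have hz : z < N := hN z (by simp)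
    have hB : ∀ v ∈ B, v < N := fun v hv => hN v (by simp [hv])
    have hAy : ∀ v ∈ A ++ [y], v < N := by
      intro v hv
      rw [mem_append, mem_singleton] at hv
      rcases hv with hv | rfl
      · exact hA v hv
      · exact hy
    have key := nvs_snoc V4 (A ++ [y]) (N :: B) z
    have hiff : V4 (A ++ [y]) (z :: N :: B) ↔ V4 [y] (z :: B) := by
      rw [← V4_snoc' A (z :: B) y]
      have := V4_insert_iff (A := A ++ [y]) (T := [z]) (B := B) (N := N) hAy
        (by simpa using hz) hB
      simpa using this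
    rw [if_congr hiff rfl rfl] at key
    have hfirst : V4 [y] (z :: B) → rn N (z :: B) = (1, ((rn z B).1, 1) :: (rn z B).2) := by
      intro h
      rw [rn_max hz, if_pos]
      exact (V4_single _ _).2 ⟨hm, ((V4_single _ _).1 h).2⟩
    by_cases hyz : y ≤ z
    · rw [nvs_move hyz hA hy hz hB, hc] at key
      have h2 := ih (A ++ [y]) z _ hN' hm' key
      rw [rn, if_pos hyz, kidsR]
      simp only
      by_cases hV : V4 [y] (z :: B)
      · rw [if_pos ((V4_snoc' A _ y).2 hV), if_pos hV, singleton_append]
        rw [if_pos hV] at h2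
        rw [Nat.add_comm 1 (rn z B).1, range_succ_eq_map, map_cons, cons_append]
        refine Forall₂.cons ?_ ?_
        · refine child hN' ((V4_snoc' A _ y).2 hV) c hc _ rfl ?_ ?_
          · rw [hfirst hV]
            simp
          · rw [hfirst hV]
            simp
        · rw [map_map]
          convert h2 using 3
          funext p
          simp only [Function.comp_apply, Nat.succ_eq_add_one, Prod.mk.injEq, cons.injEq, and_true,
            true_and]
          omega
      · rw [if_neg (fun h => hV ((V4_snoc' A _ y).1 h)), if_neg hV, nil_append, Nat.zero_add]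
        rw [if_neg hV, add_zero] at h2
        exact h2
    · have hzy : z < y := by omega
      rw [nvs_desc hzy hA hy hB, Nat.zero_add] at key
      have h2 := ih (A ++ [y]) z _ hN' hm' key
      rw [rn, if_neg hyz, kidsR]
      simp only [touch4]
      by_cases hV : V4 [y] (z :: B)
      · rw [if_pos ((V4_snoc' A _ y).2 hV), if_pos hV, singleton_append]
        rw [if_pos hV] at h2
        simp only [range_one, map_cons, map_nil, singleton_append]
        refine Forall₂.cons ?_ h2
        refine child hN' ((V4_snoc' A _ y).2 hV) c hc _ rfl ?_ ?_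
        · rw [hfirst hV]
          simp
        · rw [hfirst hV]
          simp only [Nat.zero_add, Nat.sub_self]
          rw [fl_zero]
      · rw [if_neg (fun h => hV ((V4_snoc' A _ y).1 h)), if_neg hV, nil_append]
        rw [if_neg hV] at h2
        simpa using h2

theorem left_part (N m : ℕ) (R A B : List ℕ) (hNm : m + 1 = N) (hA : ∀ v ∈ A, v < m)
    (hB : ∀ v ∈ B, v < m) (hR : ∀ v ∈ R, v < m) :
    ∃ K, kidsR V4 N A (B ++ m :: R) = K ++ kidsR V4 N (A ++ B ++ [m]) R ∧
      nvs V4 (A ++ B ++ [m]) R = nvs V4 A (B ++ m :: R) + K.length ∧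
      Forall₂ Rep4 K ((range K.length).map (fun j => (nvs V4 A (B ++ m :: R) + (j + 1), false,
        (K.length - (j + 1) + (rn m R).1, 0) :: (rn m R).2))) ∧
      (∀ A' x, A = A' ++ [x] → (x :: B).Pairwise (· ≤ ·) →
        rn x (B ++ m :: R) = (K.length + (rn m R).1, (rn m R).2)) := by
  classical
  have hWN : ∀ B' : List ℕ, m ∈ B' → ¬ V4 [N] B' := by
    intro B' h1 h2
    exact ((V4_single _ _).1 h2).1 m h1 hNm
  have hall : ∀ (A B : List ℕ), (∀ v ∈ A, v < m) → (∀ v ∈ B, v < m) →
      ∀ v ∈ A ++ (B ++ m :: R), v < N := by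
    intro A B hA hB v hv
    simp only [mem_append, mem_cons] at hv
    rcases hv with h | h | h | h
    · have := hA v h
      omega
    · have := hB v h
      omega
    · omega
    · have := hR v h
      omega
  induction B generalizing A with
  | nil =>
    simp only [nil_append, append_nil]
    have hl := nvs_left (A := A) (B := []) (R := R) (m := m) (N := N) (by omega) hA hB hR
    simp only [nil_append] at hl
    by_cases hV : V4 A (m :: R)
    · refine ⟨[A ++ N :: (m :: R)], ?_, ?_, ?_, ?_⟩
      · rw [kidsR, if_pos hV]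
      · rw [nvs_snoc, if_pos hV]
        rfl
      · simp only [length_singleton, range_one, map_cons, map_nil]
        refine Forall₂.cons ?_ Forall₂.nil
        refine child (hall A [] hA hB) hV _ hl _ rfl ?_ ?_
        · rw [nil_append, rn_max (by omega), if_neg (hWN _ (by simp))]
          simp
        · rw [nil_append, rn_max (by omega), if_neg (hWN _ (by simp))]
          simp
      · intro A' x hx _
        have hV' : V4 [x] (m :: R) := by
          rw [hx] at hV
          exact (V4_snoc' _ _ _).1 hV
        have hxm : x < m := hA x (by rw [hx]; simp)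
        rw [rn, if_pos hxm.le, if_pos hV']
        simp
    · refine ⟨[], ?_, ?_, ?_, ?_⟩
      · rw [kidsR, if_neg hV]
      · rw [nvs_snoc, if_neg hV]
        rfl
      · simp
      · intro A' x hx _
        have hV' : ¬ V4 [x] (m :: R) := by
          intro h
          apply hV
          rw [hx]
          exact (V4_snoc' _ _ _).2 h
        have hxm : x < m := hA x (by rw [hx]; simp)
        rw [rn, if_pos hxm.le, if_neg hV']
        simp
  | cons b B ih =>
    have hB' : ∀ v ∈ B, v < m := fun v hv => hB v (mem_cons_of_mem _ hv)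
    have hb : b < m := hB b (by simp)
    have hA' : ∀ v ∈ A ++ [b], v < m := by
      intro v hv
      rw [mem_append, mem_singleton] at hv
      rcases hv with hv | rfl
      · exact hA v hv
      · exact hb
    obtain ⟨K, h1, h2, h3, h4⟩ := ih (A ++ [b]) hA' hB'
    have e1 : A ++ b :: B = A ++ [b] ++ B := by simp
    have e2 := nvs_snoc V4 A (B ++ m :: R) b
    have hl := nvs_left (A := A) (B := b :: B) (R := R) (m := m) (N := N) (by omega) hA hB hR
    by_cases hV : V4 A (b :: (B ++ m :: R))
    · rw [if_pos hV] at e2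
      have hinc : (b :: B).Pairwise (· ≤ ·) := by
        have h5 := (V4_insert_iff (A := A) (T := b :: B) (B := R) (N := m) hA hB hR).1 hV
        exact h5.2
      have h6 := h4 A b rfl hinc
      refine ⟨(A ++ N :: b :: (B ++ m :: R)) :: K, ?_, ?_, ?_, ?_⟩
      · rw [cons_append, kidsR, if_pos hV, h1, e1]
        rfl
      · rw [e1, h2, e2, cons_append, length_cons]
        omega
      · rw [length_cons, range_succ_eq_map, map_cons, map_map]
        refine Forall₂.cons ?_ ?_
        · refine child (hall A (b :: B) hA hB) hV _ hl _ rfl ?_ ?_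
          · rw [cons_append, rn_max (by omega), if_neg (hWN _ (by simp))]
            simp
          · rw [cons_append, rn_max (by omega), if_neg (hWN _ (by simp)), h6]
            simp
        · convert h3 using 2
          funext p
          simp only [Function.comp_apply, Nat.succ_eq_add_one, Prod.mk.injEq, cons.injEq, and_true,
            true_and, cons_append]
          omega
      · intro A' x hx hp
        have hV' : V4 [x] (b :: (B ++ m :: R)) := by
          rw [hx] at hV
          exact (V4_snoc' _ _ _).1 hV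
        have hxb : x ≤ b := (pairwise_cons.1 hp).1 b (by simp)
        rw [cons_append, rn, if_pos hxb, if_pos hV', h6, length_cons]
        simp only [Prod.mk.injEq, and_true]
        omega
    · rw [if_neg hV, add_zero] at e2
      refine ⟨K, ?_, ?_, ?_, ?_⟩
      · rw [cons_append, kidsR, if_neg hV, h1, e1]
        rfl
      · rw [e1, h2, e2, cons_append]
      · rw [e2] at h3
        exact h3
      · intro A' x hx hp
        have hV' : ¬ V4 [x] (b :: (B ++ m :: R)) := by
          intro h
          apply hV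
          rw [hx]
          exact (V4_snoc' _ _ _).2 h
        have hxb : x ≤ b := (pairwise_cons.1 hp).1 b (by simp)
        rw [cons_append, rn, if_pos hxb, if_neg hV', h4 A b rfl (pairwise_cons.1 hp).2]
        simp

/-- C4 -/
theorem card4 (n : ℕ) :
    {l : List ℕ | l.Perm (List.range (n + 1)) ∧ (Fsh l ∧ Av4213 l)}.ncard
      = cnt ch4 n (1, true, []) := by
  classical
  refine ncard_tree (fun l => Fsh l ∧ Av4213 l) V4 ch4 Rep4 (1, true, []) ?_ hV4 ?_ ?_ n
  · refine ⟨fsh_single 0, ?_⟩
    intro a b c d h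
    have := h.length_le
    simp at this
  · refine ⟨[], [], 0, rfl, by simp, ?_, ?_, rfl⟩
    · rw [nvs_snoc, if_pos]
      · rfl
      · refine ⟨?_, ?_⟩
        · intro A' x h
          simp at h
        · intro a b c h
          have := h.length_le
          simp at this
    · simp [rn]
  · rintro n l ⟨a, nu, st⟩ h1 h2 ⟨L, R, m, rfl, h3, h4, h5, h6⟩
    simp only at h4 h5 h6
    have hlen : (L ++ m :: R).length = n + 1 := by rw [h1.length_eq, length_range]
    have hm : m = n := by
      have h6 : m ∈ range (n + 1) := by rw [← h1.mem_iff]; simp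
      have h7 : n ∈ L ++ m :: R := by rw [h1.mem_iff]; simp
      rw [mem_range] at h6
      by_contra h8
      have h9 : n ∈ L ++ R := by
        simp only [mem_append, mem_cons] at h7 ⊢
        rcases h7 with h7 | h7 | h7
        · exact Or.inl h7
        · exact absurd h7.symm h8
        · exact Or.inr h7
      have := h3 n h9
      omega
    have hL : ∀ v ∈ L, v < m := fun v hv => h3 v (mem_append_left _ hv)
    have hR : ∀ v ∈ R, v < m := fun v hv => h3 v (mem_append_right _ hv)
    obtain ⟨K, k1, k2, k3, _⟩ := left_part (n + 1) m R [] L (by omega) (by simp) hL hR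
    simp only [nil_append, nvs_nil, zero_add] at k1 k2 k3
    have hK : K.length = a := by omega
    refine ⟨K ++ kidsR V4 (n + 1) (L ++ [m]) R, ?_, ?_⟩
    · rw [kids_eq, hlen, k1]
    · have hr := right_part (n + 1) L R m a ?_ ?_ ?_
      · unfold ch4
        simp only
        rw [append_assoc]
        refine rel_append ?_ ?_
        · rw [hK, h5] at k3
          refine rep_congr k3 (forall2_map_range _ _ _ fun p => ?_)
          exact ⟨rfl, rfl, fl_cons_congr _ h6⟩
        · obtain ⟨K1, K2, hK12, hr1, hr2⟩ : ∃ K1 K2, kidsR V4 (n + 1) (L ++ [m]) R = K1 ++ K2 ∧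
              Forall₂ Rep4 K1 ((range (rn m R).1).map
                (fun p => (a + (p + 1), true, ((rn m R).1 - (p + 1), 1) :: (rn m R).2))) ∧
              Forall₂ Rep4 K2 (touch4 (rn m R).2) := by
            have := forall₂_iff_get.1 hr
            refine ⟨_, _, (take_append_drop _ _).symm, forall₂_take_append _ _ _ hr,
              forall₂_drop_append _ _ _ hr⟩
          rw [hK12]
          refine rel_append ?_ (rep_touch hr2 h6)
          rw [h5] at hr1
          cases nu with
          | true =>
            simp only [if_true, range_one, map_cons, map_nil] at hr1 ⊢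
            refine rep_congr hr1 (Forall₂.cons ?_ Forall₂.nil)
            refine ⟨rfl, rfl, ?_⟩
            simp only [Nat.zero_add, Nat.sub_self]
            rw [fl_zero, h6]
          | false => simpa using hr1
      · intro v hv
        simp only [mem_append, mem_cons] at hv
        rcases hv with hv | hv | hv
        · have := hL v hv
          omega
        · omega
        · have := hR v hv
          omega
      · intro v hv
        have := hR v hv
        omega
      · rw [nvs_max (by omega) hL hR, h4]

end Pool.Agent.T9h67.Fish
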