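import Pool.Agent.T9h72.Fish.Defs

set_option autoImplicit false

namespace Pool.Agent.T9h72.Fish

/-- `π` contains the classical pattern `σ`: some subsequence of `π` is order-isomorphic to `σ`. -/
def Contains {k n : ℕ} (π : Equiv.Perm (Fin n)) (σ : Equiv.Perm (Fin k)) : Prop :=
  ∃ f : Fin k ↪o Fin n, ∀ a b : Fin k, σ a < σ b ↔ π (f a) < π (f b)

/-- `π` is a Fishburn permutation: there are no indices `i` and `j > i + 1` with
`π(j) + 1 = π(i) < π(i+1)`. -/
def IsFishburn {n : ℕ} (π : Equiv.Perm (Fin n)) : Prop :=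
  ¬ ∃ (i j : Fin n) (h : (i : ℕ) + 1 < n), (i : ℕ) + 1 < j ∧ (π j : ℕ) + 1 = π i ∧
    π i < π ⟨(i : ℕ) + 1, h⟩

/-- The set of the Fishburn permutations of size `n` which avoid `σ`. -/
def F (n : ℕ) {k : ℕ} (σ : Equiv.Perm (Fin k)) : Set (Equiv.Perm (Fin n)) :=
  {π | IsFishburn π ∧ ¬ Contains π σ}

/-- The pattern `3214` (with values `0, …, 3`). -/
def p3214 : Equiv.Perm (Fin 4) := ⟨![2, 1, 0, 3], ![2, 1, 0, 3], by decide, by decide⟩

/-- The pattern `4132` (with values `0, …, 3`). -/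
def p4132 : Equiv.Perm (Fin 4) := ⟨![3, 0, 2, 1], ![1, 3, 2, 0], by decide, by decide⟩

/-- The pattern `4213` (with values `0, …, 3`). -/
def p4213 : Equiv.Perm (Fin 4) := ⟨![3, 1, 0, 2], ![2, 1, 3, 0], by decide, by decide⟩

/-! ### one-line notation -/

/-- the one-line notation of `π` -/
def oneLine {n : ℕ} (π : Equiv.Perm (Fin n)) : List ℕ := List.ofFn (fun i => (π i : ℕ))

theorem oneLine_length {n : ℕ} (π : Equiv.Perm (Fin n)) : (oneLine π).length = n := by
  simp [oneLine]

theorem oneLine_get {n : ℕ} (π : Equiv.Perm (Fin n)) (i : ℕ) (h : i < (oneLine π).length)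
    (h' : i < n) : (oneLine π)[i] = π ⟨i, h'⟩ := by
  simp [oneLine]

theorem oneLine_injective {n : ℕ} : Function.Injective (oneLine (n := n)) := by
  intro π ρ h
  have h1 := List.ofFn_injective h
  ext i
  exact congrFun h1 i

theorem oneLine_perm {n : ℕ} (π : Equiv.Perm (Fin n)) : (oneLine π).Perm (List.range n) := by
  have h1 : (oneLine π).Nodup := by
    unfold oneLine
    rw [List.nodup_ofFn]
    intro a b hab
    exact π.injective (Fin.ext hab)
  refine (List.perm_ext_iff_of_nodup h1 List.nodup_range).2 ?_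
  intro a
  rw [List.mem_range]
  unfold oneLine
  rw [List.mem_ofFn]
  constructor
  · rintro ⟨i, rfl⟩
    exact (π i).2
  · intro ha
    exact ⟨π.symm ⟨a, ha⟩, by simp⟩

theorem exists_oneLine {n : ℕ} {l : List ℕ} (hl : l.Perm (List.range n)) :
    ∃ π : Equiv.Perm (Fin n), oneLine π = l := by
  have hlen : l.length = n := by
    have := hl.length_eq
    rwa [List.length_range] at this
  have hnd : l.Nodup := hl.nodup_iff.2 List.nodup_range
  have hlt : ∀ (i : ℕ) (h : i < l.length), l[i] < n := by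
    intro i h
    have : l[i] ∈ List.range n := hl.mem_iff.1 (List.getElem_mem h)
    rwa [List.mem_range] at this
  let f : Fin n → Fin n := fun i => ⟨l[(i : ℕ)]'(by rw [hlen]; exact i.2), hlt _ _⟩
  have hf : Function.Injective f := by
    intro i j hij
    have h1 : l[(i : ℕ)]'(by rw [hlen]; exact i.2) = l[(j : ℕ)]'(by rw [hlen]; exact j.2) := by
      have := congrArg Fin.val hij
      exact this
    have h2 := (List.Nodup.getElem_inj_iff hnd).1 h1
    exact Fin.ext h2
  let π : Equiv.Perm (Fin n) := Equiv.ofBijective f (Finite.injective_iff_bijective.1 hf)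
  refine ⟨π, ?_⟩
  apply List.ext_getElem
  · rw [oneLine_length, hlen]
  · intro i h1 h2
    rw [oneLine_get π i h1 (by rw [← hlen]; exact h2)]
    rfl

/-- counting -/
theorem ncard_transl {n : ℕ} (M : Equiv.Perm (Fin n) → List ℕ) (hM : Function.Injective M)
    (hM1 : ∀ π, (M π).Perm (List.range n))
    (hM2 : ∀ l : List ℕ, l.Perm (List.range n) → ∃ π, M π = l)
    (P : Equiv.Perm (Fin n) → Prop) (Q : List ℕ → Prop) (h : ∀ π, P π ↔ Q (M π)) :
    {π | P π}.ncard = {l : List ℕ | l.Perm (List.range n) ∧ Q l}.ncard := by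
  have : {l : List ℕ | l.Perm (List.range n) ∧ Q l} = M '' {π | P π} := by
    ext l
    simp only [Set.mem_ofPred_eq, Set.mem_image]
    constructor
    · rintro ⟨h1, h2⟩
      obtain ⟨π, rfl⟩ := hM2 l h1
      exact ⟨π, (h π).2 h2, rfl⟩
    · rintro ⟨π, h1, rfl⟩
      exact ⟨hM1 π, (h π).1 h1⟩
  rw [this, Set.ncard_image_of_injective _ hM]

/-! ### patterns -/

theorem sublist_four {n : ℕ} (π : Equiv.Perm (Fin n)) (a b c d : ℕ) :
    [a, b, c, d].Sublist (oneLine π) ↔ ∃ f : Fin 4 ↪o Fin n, (π (f 0) : ℕ) = a ∧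
      (π (f 1) : ℕ) = b ∧ (π (f 2) : ℕ) = c ∧ (π (f 3) : ℕ) = d := by
  rw [List.sublist_iff_exists_fin_orderEmbedding_get_eq]
  constructor
  · rintro ⟨f, hf⟩
    let e : Fin (oneLine π).length ≃o Fin n := Fin.castOrderIso (oneLine_length π)
    have hlen := oneLine_length π
    have key : ∀ ix : Fin 4, (π (e (f ix)) : ℕ) = [a, b, c, d].get ix := by
      intro ix
      have h1 := hf ix
      rw [List.get_eq_getElem (l := oneLine π)] at h1
      have h5 : ((f ix : Fin (oneLine π).length) : ℕ) < n := by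
        have := (f ix).2
        omega
      rw [h1, oneLine_get π _ _ h5]
      rfl
    refine ⟨(show Fin 4 ↪o Fin (oneLine π).length from f).trans e.toOrderEmbedding, ?_, ?_, ?_, ?_⟩
    · exact key 0
    · exact key 1
    · exact key 2
    · exact key 3
  · rintro ⟨f, h0, h1, h2, h3⟩
    let e : Fin n ≃o Fin (oneLine π).length := Fin.castOrderIso (oneLine_length π).symm
    refine ⟨(show Fin [a, b, c, d].length ↪o Fin n from f).trans e.toOrderEmbedding, ?_⟩
    intro ix
    have h4 : (oneLine π).get (e (f ix)) = π (f ix) := by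
      exact oneLine_get π _ _ (f ix).2
    refine Eq.trans ?_ h4.symm
    fin_cases ix
    · exact h0.symm
    · exact h1.symm
    · exact h2.symm
    · exact h3.symm

theorem contains_iff {n : ℕ} (π : Equiv.Perm (Fin n)) (σ : Equiv.Perm (Fin 4))
    (R : ℕ → ℕ → ℕ → ℕ → Prop)
    (hR : ∀ v : Fin 4 → ℕ, R (v 0) (v 1) (v 2) (v 3) ↔ ∀ a b : Fin 4, σ a < σ b ↔ v a < v b) :
    Contains π σ ↔ ∃ a b c d : ℕ, [a, b, c, d].Sublist (oneLine π) ∧ R a b c d := by
  constructor
  · rintro ⟨f, hf⟩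
    refine ⟨π (f 0), π (f 1), π (f 2), π (f 3), (sublist_four π _ _ _ _).2 ⟨f, rfl, rfl, rfl, rfl⟩, ?_⟩
    have := (hR (fun i => (π (f i) : ℕ))).2 (by
      intro a b
      rw [hf a b]
      exact Fin.lt_def)
    exact this
  · rintro ⟨a, b, c, d, h1, h2⟩
    obtain ⟨f, rfl, rfl, rfl, rfl⟩ := (sublist_four π _ _ _ _).1 h1
    refine ⟨f, ?_⟩
    have := (hR (fun i => (π (f i) : ℕ))).1 h2
    intro x y
    rw [this x y]
    exact Fin.lt_def.symm

theorem contains_inv {k n : ℕ} {π : Equiv.Perm (Fin n)} {σ : Equiv.Perm (Fin k)}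
    (h : Contains π σ) : Contains π⁻¹ σ⁻¹ := by
  obtain ⟨f, hf⟩ := h
  refine ⟨OrderEmbedding.ofStrictMono (fun c => π (f (σ⁻¹ c))) ?_, ?_⟩
  · intro c c' hc
    refine (hf _ _).1 ?_
    simpa using hc
  · intro a b
    simp

theorem contains_inv_iff {k n : ℕ} (π : Equiv.Perm (Fin n)) (σ : Equiv.Perm (Fin k)) :
    Contains π σ ↔ Contains π⁻¹ σ⁻¹ := by
  refine ⟨contains_inv, fun h => ?_⟩
  have := contains_inv h
  rwa [inv_inv, inv_inv] at this

theorem R4132 (v : Fin 4 → ℕ) : (v 1 < v 3 ∧ v 3 < v 2 ∧ v 2 < v 0) ↔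
    ∀ a b : Fin 4, p4132 a < p4132 b ↔ v a < v b := by
  constructor
  · rintro ⟨h1, h2, h3⟩ a b
    fin_cases a <;> fin_cases b <;> simp [p4132, Fin.lt_def] <;> omega
  · intro h
    refine ⟨(h 1 3).1 (by decide), (h 3 2).1 (by decide), (h 2 0).1 (by decide)⟩

theorem R4213 (v : Fin 4 → ℕ) : (v 2 < v 1 ∧ v 1 < v 3 ∧ v 3 < v 0) ↔
    ∀ a b : Fin 4, p4213 a < p4213 b ↔ v a < v b := by
  constructor
  · rintro ⟨h1, h2, h3⟩ a b
    fin_cases a <;> fin_cases b <;> simp [p4213, Fin.lt_def] <;> omega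
  · intro h
    refine ⟨(h 2 1).1 (by decide), (h 1 3).1 (by decide), (h 3 0).1 (by decide)⟩

theorem R3214 (v : Fin 4 → ℕ) : (v 2 < v 1 ∧ v 1 < v 0 ∧ v 0 < v 3) ↔
    ∀ a b : Fin 4, p3214 a < p3214 b ↔ v a < v b := by
  constructor
  · rintro ⟨h1, h2, h3⟩ a b
    fin_cases a <;> fin_cases b <;> simp [p3214, Fin.lt_def] <;> omega
  · intro h
    refine ⟨(h 2 1).1 (by decide), (h 1 0).1 (by decide), (h 0 3).1 (by decide)⟩

theorem av4132 {n : ℕ} (π : Equiv.Perm (Fin n)) : ¬ Contains π p4132 ↔ Av4132 (oneLine π) := by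
  rw [contains_iff π p4132 (fun a b c d => b < d ∧ d < c ∧ c < a) R4132]
  unfold Av4132
  constructor
  · intro h a b c d h1 h2
    exact h ⟨a, b, c, d, h1, h2⟩
  · rintro h ⟨a, b, c, d, h1, h2⟩
    exact h a b c d h1 h2

theorem av4213 {n : ℕ} (π : Equiv.Perm (Fin n)) : ¬ Contains π p4213 ↔ Av4213 (oneLine π) := by
  rw [contains_iff π p4213 (fun a b c d => c < b ∧ b < d ∧ d < a) R4213]
  unfold Av4213
  constructor
  · intro h a b c d h1 h2
    exact h ⟨a, b, c, d, h1, h2⟩
  · rintro h ⟨a, b, c, d, h1, h2⟩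
    exact h a b c d h1 h2

theorem av3214 {n : ℕ} (π : Equiv.Perm (Fin n)) : ¬ Contains π p3214 ↔ Av3214 (oneLine π⁻¹) := by
  have e : (p3214)⁻¹ = p3214 := by decide
  rw [contains_inv_iff, e, contains_iff π⁻¹ p3214 (fun a b c d => c < b ∧ b < a ∧ a < d) R3214]
  unfold Av3214
  constructor
  · intro h a b c d h1 h2
    exact h ⟨a, b, c, d, h1, h2⟩
  · rintro h ⟨a, b, c, d, h1, h2⟩
    exact h a b c d h1 h2

/-! ### the Fishburn condition -/

theorem split_get {l A B : List ℕ} {x y : ℕ} (h : l = A ++ x :: y :: B) :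
    ∃ (h1 : A.length < l.length) (h2 : A.length + 1 < l.length), l[A.length] = x ∧
      l[A.length + 1] = y := by
  subst h
  refine ⟨by simp, by simp, ?_, ?_⟩
  · rw [List.getElem_append_right (le_refl _)]
    simp
  · rw [List.getElem_append_right (by omega)]
    simp

theorem fsh_iff {n : ℕ} (π : Equiv.Perm (Fin n)) : IsFishburn π ↔ Fsh (oneLine π) := by
  have hlen := oneLine_length π
  constructor
  · intro h A x y B hl hxy v hv hvx
    obtain ⟨h1, h2, h3, h4⟩ := split_get hl
    have hA : A.length < n := by rw [← hlen]; exact h1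
    have hA1 : A.length + 1 < n := by rw [← hlen]; exact h2
    obtain ⟨m, hm, rfl⟩ := List.getElem_of_mem hv
    have hm2 : A.length + 2 + m < (oneLine π).length := by
      rw [hl]; simp; omega
    have h5 : (oneLine π)[A.length + 2 + m] = B[m] := by
      have : ∀ (l : List ℕ) (hl : l = A ++ x :: y :: B) (h : A.length + 2 + m < l.length),
          l[A.length + 2 + m] = B[m] := by
        rintro l rfl h
        rw [List.getElem_append_right (by omega)]
        have e : A.length + 2 + m - A.length = m + 1 + 1 := by omega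
        simp only [e, List.getElem_cons_succ]
      exact this _ hl _
    rw [oneLine_get π _ _ hA] at h3
    rw [oneLine_get π _ _ hA1] at h4
    rw [oneLine_get π _ _ (by rw [← hlen]; exact hm2)] at h5
    refine h ⟨⟨A.length, hA⟩, ⟨A.length + 2 + m, by rw [← hlen]; exact hm2⟩, hA1, ?_, ?_, ?_⟩
    · show A.length + 1 < A.length + 2 + m
      omega
    · rw [h5, h3]; exact hvx
    · rw [Fin.lt_def, h3, h4]; exact hxy
  · rintro h ⟨i, j, hi, hij, h1, h2⟩
    have hi0 := i.2
    have hsplit : oneLine π = (oneLine π).take i ++ (π i : ℕ) :: (π ⟨i + 1, hi⟩ : ℕ) ::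
        (oneLine π).drop (i + 2) := by
      conv_lhs => rw [← List.take_append_drop (i : ℕ) (oneLine π)]
      congr 1
      rw [List.drop_eq_getElem_cons (by rw [hlen]; exact hi0),
        List.drop_eq_getElem_cons (by rw [hlen]; exact hi),
        oneLine_get π _ _ hi0, oneLine_get π _ _ hi]
    refine h _ _ _ _ hsplit h2 (π j) ?_ h1
    have hj := j.2
    have : (oneLine π)[(j : ℕ)]'(by rw [hlen]; exact hj) ∈ (oneLine π).drop (i + 2) := by
      rw [List.mem_iff_getElem]
      refine ⟨j - (i + 2), ?_, ?_⟩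
      · rw [List.length_drop, hlen]; omega
      · rw [List.getElem_drop]
        congr 1
        omega
    rwa [oneLine_get π _ _ hj] at this

theorem fshI_iff {n : ℕ} (π : Equiv.Perm (Fin n)) : IsFishburn π ↔ FshI (oneLine π⁻¹) := by
  have hlen := oneLine_length π⁻¹
  constructor
  · intro h A x y B hl hxy
    obtain ⟨h1, h2, h3, h4⟩ := split_get hl
    have hA : A.length < n := by rw [← hlen]; exact h1
    have hA1 : A.length + 1 < n := by rw [← hlen]; exact h2
    rw [oneLine_get _ _ _ hA] at h3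
    rw [oneLine_get _ _ _ hA1] at h4
    by_contra hcon
    push Not at hcon
    obtain ⟨hc1, hc2⟩ := hcon
    have hx : x < n := by rw [← h3]; exact (π⁻¹ _).2
    have hy : y < n := by rw [← h4]; exact (π⁻¹ _).2
    have ex : π ⟨x, hx⟩ = ⟨A.length, hA⟩ := by
      have : (⟨x, hx⟩ : Fin n) = π⁻¹ ⟨A.length, hA⟩ := Fin.ext h3.symm
      rw [this]; simp
    have ey : π ⟨y, hy⟩ = ⟨A.length + 1, hA1⟩ := by
      have : (⟨y, hy⟩ : Fin n) = π⁻¹ ⟨A.length + 1, hA1⟩ := Fin.ext h4.symm
      rw [this]; simp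
    have hy1 : y + 1 < x := by omega
    have hy1n : y + 1 < n := by omega
    refine h ⟨⟨y, hy⟩, ⟨x, hx⟩, hy1n, hy1, ?_, ?_⟩
    · rw [ex, ey]
    · rw [ey, Fin.lt_def]
      show A.length + 1 < (π ⟨y + 1, hy1n⟩ : ℕ)
      set q := π ⟨y + 1, hy1n⟩ with hq
      have hq1 : (q : ℕ) ≠ A.length := by
        intro hqe
        have h5 : q = π ⟨x, hx⟩ := by rw [ex]; exact Fin.ext hqe
        have h6 := π.injective (hq.symm.trans h5)
        have := congrArg Fin.val h6
        simp only at this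
        omega
      have hq2 : (q : ℕ) ≠ A.length + 1 := by
        intro hqe
        have h5 : q = π ⟨y, hy⟩ := by rw [ey]; exact Fin.ext hqe
        have h6 := π.injective (hq.symm.trans h5)
        have := congrArg Fin.val h6
        simp only at this
        omega
      have hq3 : ¬ (q : ℕ) < A.length := by
        intro hqe
        apply hc2
        have h5 : π⁻¹ q = ⟨y + 1, hy1n⟩ := by rw [hq]; simp
        have h6 : A[(q : ℕ)] = y + 1 := by
          have : ∀ (l : List ℕ) (hl : l = A ++ x :: y :: B) (h : (q : ℕ) < l.length),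
              l[(q : ℕ)] = A[(q : ℕ)] := by
            rintro l rfl h
            rw [List.getElem_append_left hqe]
          rw [← this _ hl (by rw [hlen]; exact q.2), oneLine_get _ _ _ q.2]
          show (π⁻¹ q : ℕ) = y + 1
          rw [h5]
        rw [← h6]
        exact List.getElem_mem hqe
      omega
  · rintro h ⟨i, j, hi, hij, h1, h2⟩
    -- `x = j`, `y = i`, `p = π j`
    have hp := (π j).2
    have hp1 : (π j : ℕ) + 1 < n := by rw [h1]; exact (π i).2
    have hsplit : oneLine π⁻¹ = (oneLine π⁻¹).take (π j) ++ (j : ℕ) :: (i : ℕ) ::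
        (oneLine π⁻¹).drop ((π j : ℕ) + 2) := by
      conv_lhs => rw [← List.take_append_drop (π j : ℕ) (oneLine π⁻¹)]
      congr 1
      rw [List.drop_eq_getElem_cons (by rw [hlen]; exact hp),
        List.drop_eq_getElem_cons (by rw [hlen]; exact hp1),
        oneLine_get _ _ _ hp, oneLine_get _ _ _ hp1]
      have e1 : π⁻¹ ⟨(π j : ℕ), hp⟩ = j := by simp
      have e2 : π⁻¹ ⟨(π j : ℕ) + 1, hp1⟩ = i := by
        have : (⟨(π j : ℕ) + 1, hp1⟩ : Fin n) = π i := Fin.ext h1
        rw [this]; simp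
      rw [e1, e2]
    rcases h _ _ _ _ hsplit (by omega) with h3 | h3
    · omega
    · rw [List.mem_iff_getElem] at h3
      obtain ⟨q, hq, hqe⟩ := h3
      rw [List.length_take, hlen] at hq
      rw [List.getElem_take, oneLine_get _ _ _ (by omega)] at hqe
      have h4 : π⁻¹ ⟨q, by omega⟩ = ⟨(i : ℕ) + 1, hi⟩ := Fin.ext hqe
      have h5 : (⟨q, by omega⟩ : Fin n) = π ⟨(i : ℕ) + 1, hi⟩ := by
        rw [← h4]; simp
      rw [← h5, Fin.lt_def] at h2
      simp only at h2
      omega

/-- D1: `π` is `List.ofFn (fun i => (π i : ℕ))`, for `4132` and `4213`; for `3214` the list is the one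
of `π⁻¹` (`3214` is an involution, and `FshI` is the Fishburn condition read on the inverse). -/
theorem transl (n : ℕ) :
    (F n p3214).ncard = {l : List ℕ | l.Perm (List.range n) ∧ (FshI l ∧ Av3214 l)}.ncard ∧
    (F n p4132).ncard = {l : List ℕ | l.Perm (List.range n) ∧ (Fsh l ∧ Av4132 l)}.ncard ∧
    (F n p4213).ncard = {l : List ℕ | l.Perm (List.range n) ∧ (Fsh l ∧ Av4213 l)}.ncard := by
  refine ⟨?_, ?_, ?_⟩
  · refine ncard_transl (fun π => oneLine π⁻¹) ?_ (fun π => oneLine_perm _) ?_ _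
      (fun l => FshI l ∧ Av3214 l) (fun π => and_congr (fshI_iff π) (av3214 π))
    · intro π ρ h
      exact inv_injective (oneLine_injective h)
    · intro l hl
      obtain ⟨π, rfl⟩ := exists_oneLine hl
      exact ⟨π⁻¹, by simp⟩
  · exact ncard_transl oneLine oneLine_injective oneLine_perm (fun l hl => exists_oneLine hl) _
      (fun l => Fsh l ∧ Av4132 l) (fun π => and_congr (fsh_iff π) (av4132 π))
  · exact ncard_transl oneLine oneLine_injective oneLine_perm (fun l hl => exists_oneLine hl) _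
      (fun l => Fsh l ∧ Av4213 l) (fun π => and_congr (fsh_iff π) (av4213 π))

end Pool.Agent.T9h72.Fish
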